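import Pool.Agent.H84.OS.Pat
import Pool.Agent.H41.RC.WMax

/-!
MP_dd013b_lc (optimal solutions of random problems): the probability of the bad instances.
-/

set_option autoImplicit false

namespace Pool.Agent.H84.OS

open Finset

open Pool.Agent.H92.SR hiding nb

open Pool.Agent.H84.TS (mix sf_sq)

variable {n : ℕ}

open Classical in
theorem meanW {A : Fin n → Finset ℕ} {w : Fin n → ℕ → ℝ} (hw0 : ∀ i, ∀ a ∈ A i, 0 ≤ w i a)
    (hw1 : ∀ i, ∑ a ∈ A i, w i a = 1) (I : Finset (Fin n)) (P : (Fin n → ℕ) → Prop) {K : ℝ}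
    (hK : ∀ x ∈ Fintype.piFinset A,
      ∑ z ∈ (Fintype.piFinset A).filter (fun z => P (mix I z x)), ∏ i, w i (z i) ≤ K) :
    ∑ x ∈ (Fintype.piFinset A).filter P, ∏ i, w i (x i) ≤ K := by
  obtain ⟨B, hB⟩ : ∃ B, B = Fintype.piFinset A := ⟨_, rfl⟩
  obtain ⟨W, hW⟩ : ∃ W : (Fin n → ℕ) → ℝ, W = fun x => ∏ i, w i (x i) := ⟨_, rfl⟩
  have hW0 : ∀ x ∈ B, 0 ≤ W x := by
    intro x hx
    rw [hB, Fintype.mem_piFinset] at hx
    rw [hW]
    exact Finset.prod_nonneg fun i _ => hw0 i _ (hx i)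
  have hW1 : ∑ x ∈ B, W x = 1 := by
    rw [hB, hW, ← Finset.prod_univ_sum, Finset.prod_congr rfl fun i _ => hw1 i]
    simp
  have hmix : ∀ z ∈ B, ∀ x ∈ B, mix I z x ∈ B := by
    intro z hz x hx
    rw [hB, Fintype.mem_piFinset] at hz hx ⊢
    intro i
    unfold mix
    split_ifs
    · exact hz i
    · exact hx i
  have hinv : ∀ z x : Fin n → ℕ, mix I (mix I x z) (mix I z x) = x := by
    intro z x
    funext i
    unfold mix
    by_cases hi : i ∈ I <;> simp [hi]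
  have hmul : ∀ z x : Fin n → ℕ, W (mix I z x) * W (mix I x z) = W x * W z := by
    intro z x
    rw [hW]
    simp only []
    rw [← Finset.prod_mul_distrib, ← Finset.prod_mul_distrib]
    refine Finset.prod_congr rfl fun i _ => ?_
    unfold mix
    by_cases hi : i ∈ I
    · rw [if_pos hi, if_pos hi, mul_comm]
    · rw [if_neg hi, if_neg hi]
  rw [← hB] at hK ⊢
  have hK' : ∀ x ∈ B, ∑ z ∈ B.filter (fun z => P (mix I z x)), W z ≤ K := by
    intro x hx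
    rw [hW]
    exact hK x hx
  have e1 : ∑ x ∈ B, W x * ∑ z ∈ B.filter (fun z => P (mix I z x)), W z = ∑ x ∈ B.filter P, W x := by
    have e2 : ∑ x ∈ B, W x * ∑ z ∈ B.filter (fun z => P (mix I z x)), W z =
        ∑ q ∈ (B ×ˢ B).filter (fun q => P (mix I q.2 q.1)), W q.1 * W q.2 := by
      rw [Finset.sum_filter, Finset.sum_product]
      refine Finset.sum_congr rfl fun x _ => ?_
      rw [Finset.mul_sum, Finset.sum_filter]
    have e3 : ∑ x ∈ B.filter P, W x = ∑ q ∈ (B.filter P) ×ˢ B, W q.1 * W q.2 := by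
      rw [Finset.sum_product]
      refine Finset.sum_congr rfl fun x _ => ?_
      show W x = ∑ y ∈ B, W x * W y
      rw [← Finset.mul_sum, hW1, mul_one]
    rw [e2, e3]
    refine Finset.sum_nbij' (fun q => (mix I q.2 q.1, mix I q.1 q.2))
      (fun q => (mix I q.2 q.1, mix I q.1 q.2)) ?_ ?_ ?_ ?_ ?_
    · intro q hq
      rw [mem_filter, mem_product] at hq
      obtain ⟨⟨hq1, hq2⟩, hP⟩ := hq
      rw [mem_product, mem_filter]
      exact ⟨⟨hmix _ hq2 _ hq1, hP⟩, hmix _ hq1 _ hq2⟩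
    · intro q hq
      rw [mem_product, mem_filter] at hq
      obtain ⟨⟨hq1, hP⟩, hq2⟩ := hq
      rw [mem_filter, mem_product]
      refine ⟨⟨hmix _ hq2 _ hq1, hmix _ hq1 _ hq2⟩, ?_⟩
      rw [hinv]
      exact hP
    · intro q _
      exact Prod.ext (hinv q.2 q.1) (hinv q.1 q.2)
    · intro q _
      exact Prod.ext (hinv q.2 q.1) (hinv q.1 q.2)
    · intro q _
      exact (hmul q.2 q.1).symm
  have e4 : ∑ x ∈ B, W x * ∑ z ∈ B.filter (fun z => P (mix I z x)), W z ≤ ∑ x ∈ B, W x * K :=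
    Finset.sum_le_sum fun x hx => mul_le_mul_of_nonneg_left (hK' x hx) (hW0 x hx)
  rw [e1, ← Finset.sum_mul, hW1, one_mul, hW] at e4
  exact e4

/-- the items of a solution -/
def sup (c : Fin n → ℕ) : Finset (Fin n) := univ.filter fun i => c i ≠ 0

/-- the square classes of the radicands of the items in `G`, without `1` and the class of `0` -/
noncomputable def kls (G : Finset (Fin n)) (c x : Fin n → ℕ) : Finset ℕ :=
  ((sup c ∩ G).image fun i => sf (c i ^ 2 * x i)) \ {1, sf 0}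

/-- bad at the level `m` -/
def BadO (G : Finset (Fin n)) (σ : Bool) (F : Set (Fin n → ℕ)) (r b m : ℕ) (x : Fin n → ℕ) : Prop :=
  ∃ (k : ℕ) (c : Fin n → ℕ), Opt σ F c x ∧ (∀ i, c i ≤ r) ∧ m ≤ (kls G c x).card ∧
    |val c x - k| * 2 ^ (1 + b * 4 ^ (m + 1)) < 1

theorem reps {m : ℕ} {G : Finset (Fin n)} {c x : Fin n → ℕ} (h : m ≤ (kls G c x).card) :
    ∃ I : Finset (Fin n), I.card = m ∧ (∀ i ∈ I, i ∈ G) ∧ (∀ i ∈ I, c i ≠ 0) ∧ (∀ i ∈ I, x i ≠ 0 ∧ sf (x i) ≠ 1) ∧ ∀ i ∈ I, ∀ j ∈ I, sf (x i) = sf (x j) → i = j := by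
  classical
  obtain ⟨D, hD1, hD2⟩ := Finset.exists_subset_card_eq h
  have h1 : ∀ d : {d // d ∈ D}, ∃ i : Fin n, c i ≠ 0 ∧ sf (c i ^ 2 * x i) = d.1 ∧ d.1 ≠ 1 ∧
      d.1 ≠ sf 0 ∧ i ∈ G := by
    intro d
    have h2 := hD1 d.2
    unfold kls at h2
    rw [mem_sdiff, mem_image, mem_insert, mem_singleton, not_or] at h2
    obtain ⟨⟨i, hi, hid⟩, hd1, hd2⟩ := h2
    exact ⟨i, (mem_filter.1 (mem_inter.1 hi).1).2, hid, hd1, hd2, (mem_inter.1 hi).2⟩
  choose f hf using h1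
  have hx0 : ∀ d, x (f d) ≠ 0 := by
    intro d h0
    obtain ⟨-, a2, -, a4, -⟩ := hf d
    rw [h0, mul_zero] at a2
    exact a4 a2.symm
  have hsf : ∀ d, sf (x (f d)) = d.1 := by
    intro d
    rw [← sf_cv (hf d).1 (hx0 d)]
    exact (hf d).2.1
  refine ⟨univ.image f, ?_, ?_, ?_, ?_, ?_⟩
  · rw [Finset.card_image_of_injective, Finset.card_univ, Fintype.card_coe, hD2]
    intro d d' hdd
    have := congrArg (fun i => sf (x i)) hdd
    simp only [hsf] at this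
    exact Subtype.ext this
  · intro i hi
    rw [mem_image] at hi
    obtain ⟨d, -, rfl⟩ := hi
    exact (hf d).2.2.2.2
  · intro i hi
    rw [mem_image] at hi
    obtain ⟨d, -, rfl⟩ := hi
    exact (hf d).1
  · intro i hi
    rw [mem_image] at hi
    obtain ⟨d, -, rfl⟩ := hi
    refine ⟨hx0 d, ?_⟩
    rw [hsf]
    exact (hf d).2.2.1
  · intro i hi j hj hij
    rw [mem_image] at hi hj
    obtain ⟨d, -, rfl⟩ := hi
    obtain ⟨d', -, rfl⟩ := hj
    rw [hsf, hsf] at hij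
    rw [Subtype.ext hij]

theorem choose_pow4 (n m : ℕ) : n.choose m * m ^ m ≤ (4 * (n + 1)) ^ m := by
  have h2 : n.choose m * m.factorial ≤ (n + 1) ^ m := by
    have h3 := Nat.descFactorial_eq_factorial_mul_choose n m
    have h4 := (Nat.descFactorial_le_pow n m).trans (Nat.pow_le_pow_left (show n ≤ n + 1 by omega) m)
    rw [h3, mul_comm] at h4
    exact h4
  calc n.choose m * m ^ m ≤ n.choose m * (m.factorial * 4 ^ m) := Nat.mul_le_mul_left _ (Pool.Agent.H84.SM.self_pow_le m)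
    _ = (n.choose m * m.factorial) * 4 ^ m := by ring
    _ ≤ (n + 1) ^ m * 4 ^ m := Nat.mul_le_mul_right _ h2
    _ = (4 * (n + 1)) ^ m := by rw [← mul_pow, mul_comm]

open Classical in
theorem one_setO {A : Fin n → Finset ℕ} {w : Fin n → ℕ → ℝ} {θ : ℝ} (hθ : 0 ≤ θ)
    (hw0 : ∀ i, ∀ a ∈ A i, 0 ≤ w i a) (hw1 : ∀ i, ∑ a ∈ A i, w i a = 1)
    {G : Finset (Fin n)} (hwθ : ∀ i ∈ G, ∀ a ∈ A i, w i a ≤ θ)
    {L r m : ℕ} (hL : ∀ z ∈ Fintype.piFinset A, ∀ i, √(z i : ℝ) ≤ L) (σ : Bool)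
    (F : Set (Fin n → ℕ)) {b : ℕ} (hb : 8 * (n * r * L + 1) ≤ 2 ^ b) :
    ∑ x ∈ (Fintype.piFinset A).filter (fun x => BadO G σ F r b m x), ∏ i, w i (x i) ≤
      (4 * (n + 1) * (r + 1) * θ) ^ m := by
  obtain ⟨Q, hQ⟩ : ∃ Q : (I : Finset (Fin n)) → ({o // o ∈ I} → Fin (r + 1)) → (Fin n → ℕ) → Prop,
      ∀ I f x, Q I f x ↔ ∃ (k : ℕ) (c : Fin n → ℕ), Opt σ F c x ∧ (∀ i, c i ≤ r) ∧ (∀ i ∈ I, i ∈ G) ∧ (∀ i ∈ I, c i ≠ 0) ∧
      (∀ o : {o // o ∈ I}, c o.1 = (f o : ℕ)) ∧ (∀ i ∈ I, x i ≠ 0 ∧ sf (x i) ≠ 1) ∧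
      (∀ i ∈ I, ∀ j ∈ I, sf (x i) = sf (x j) → i = j) ∧ |val c x - k| * 2 ^ (1 + b * 4 ^ (m + 1)) < 1 :=
    ⟨_, fun _ _ _ => Iff.rfl⟩
  have hW : ∀ I ∈ (univ : Finset (Fin n)).powersetCard m, ∀ f,
      ∑ x ∈ (Fintype.piFinset A).filter (Q I f), ∏ i, w i (x i) ≤ (m * θ) ^ m := by
    intro I hI f
    have hI2 := (Finset.mem_powersetCard.1 hI).2
    refine meanW hw0 hw1 I (Q I f) fun x hx => ?_
    rcases ((Fintype.piFinset A).filter fun z => Q I f (mix I z x)).eq_empty_or_nonempty with he | ⟨z0, hz0⟩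
    · rw [he, Finset.sum_empty]
      positivity
    obtain ⟨k0, c0, hS0, hc0, hG0, ho0, hf0, hn0, hd0, hl0⟩ := (hQ _ _ _).1 (mem_filter.1 hz0).2
    have h2 := patO hθ hw0 hw1 hL hx I (fun i hi => hwθ i (hG0 i hi)) σ F c0 hb
      ((Fintype.piFinset A).filter fun z => Q I f (mix I z x)) (Finset.filter_subset _ _) ho0 (fun z hz => by
        obtain ⟨k, c, hS, hc, -, ho, hf, hn1, hd1, hl⟩ := (hQ _ _ _).1 (mem_filter.1 hz).2
        have hmi : ∀ i ∈ I, mix I z x i = z i := by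
          intro i hi
          unfold mix
          rw [if_pos hi]
        refine ⟨k, c, hS, hc, fun i hi => ?_, fun i hi => ?_, fun i hi j hj hij => ?_, by rw [hI2]; exact hl⟩
        · exact (hf ⟨i, hi⟩).trans (hf0 ⟨i, hi⟩).symm
        · have := hn1 i hi
          rwa [hmi i hi] at this
        · have := hd1 i hi j hj
          rw [hmi i hi, hmi j hj] at this
          exact this hij)
    rw [hI2] at h2
    exact h2
  have hWn : ∀ x ∈ Fintype.piFinset A, 0 ≤ ∏ i, w i (x i) := fun x hx =>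
    Finset.prod_nonneg fun i _ => hw0 i _ (Fintype.mem_piFinset.1 hx i)
  have c1 := Pool.Agent.H41.RC.union_bound (Fintype.piFinset A)
    (((univ : Finset (Fin n)).powersetCard m).sigma fun I => (univ : Finset ({o // o ∈ I} → Fin (r + 1))))
    (fun x => BadO G σ F r b m x) (fun p => Q p.1 p.2) (fun x => ∏ i, w i (x i)) hWn (by
      intro x hx hbad
      obtain ⟨k, c, hS, hc, hO, hl⟩ := hbad
      obtain ⟨I, hI2, hI6, hI3, hI4, hI5⟩ := reps hO
      refine ⟨⟨I, fun o => ⟨c o.1, Nat.lt_succ_of_le (hc o.1)⟩⟩, Finset.mem_sigma.2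
        ⟨Finset.mem_powersetCard.2 ⟨Finset.subset_univ _, hI2⟩, mem_univ _⟩, ?_⟩
      rw [hQ]
      exact ⟨k, c, hS, hc, hI6, hI3, fun o => rfl, hI4, hI5, hl⟩)
  rw [Finset.sum_sigma] at c1
  calc ∑ x ∈ (Fintype.piFinset A).filter (fun x => BadO G σ F r b m x), ∏ i, w i (x i) ≤
        ∑ I ∈ (univ : Finset (Fin n)).powersetCard m, ∑ f : {o // o ∈ I} → Fin (r + 1),
          ∑ x ∈ (Fintype.piFinset A).filter (Q I f), ∏ i, w i (x i) := c1
    _ ≤ ∑ I ∈ (univ : Finset (Fin n)).powersetCard m, ∑ _f : {o // o ∈ I} → Fin (r + 1), ((m : ℝ) * θ) ^ m :=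
        Finset.sum_le_sum fun I hI => Finset.sum_le_sum fun f _ => hW I hI f
    _ = ∑ I ∈ (univ : Finset (Fin n)).powersetCard m, (((r + 1) ^ m : ℕ) : ℝ) * ((m : ℝ) * θ) ^ m := by
        refine Finset.sum_congr rfl fun I hI => ?_
        rw [Finset.sum_const, nsmul_eq_mul, Finset.card_univ]
        congr 2
        rw [Fintype.card_fun, Fintype.card_fin, Fintype.card_coe, (Finset.mem_powersetCard.1 hI).2]
    _ = (n.choose m : ℝ) * ((((r + 1) ^ m : ℕ) : ℝ) * ((m : ℝ) * θ) ^ m) := by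
        rw [Finset.sum_const, nsmul_eq_mul, Finset.card_powersetCard, Finset.card_univ, Fintype.card_fin]
    _ = ((n.choose m * m ^ m : ℕ) : ℝ) * (((r : ℝ) + 1) ^ m * θ ^ m) := by
        push_cast
        rw [mul_pow (m : ℝ) θ]
        ring
    _ ≤ (((4 * (n + 1)) ^ m : ℕ) : ℝ) * (((r : ℝ) + 1) ^ m * θ ^ m) := by
        refine mul_le_mul_of_nonneg_right ?_ (by positivity)
        exact_mod_cast choose_pow4 n m
    _ = (4 * (n + 1) * (r + 1) * θ) ^ m := by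
        push_cast
        rw [← mul_pow, ← mul_pow]
        congr 1
        ring

end Pool.Agent.H84.OS
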