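import Pool.Agent.H84.OS.Set
import Pool.Agent.H41.RC.WMain

/-!
MP_dd013b_lc (optimal solutions of random problems): the mean of the running time.
-/

set_option autoImplicit false

namespace Pool.Agent.H84.OS

open Finset

open Pool.Agent.H92.SR hiding nb box card_box

open Pool.Agent.H92.SR.Tr

variable {n : ℕ}

/-- the square classes of the radicands -/
noncomputable def clsO (c x : Fin n → ℕ) : Finset ℕ :=
  insert 1 (insert (sf 0) ((sup c).image fun i => sf (c i ^ 2 * x i)))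

theorem clsO_card {ρ : ℕ} {G : Finset (Fin n)} (hρ : (univ \ G).card ≤ ρ) (c x : Fin n → ℕ) :
    (clsO c x).card ≤ (kls G c x).card + ρ + 2 := by
  have h0 : clsO c x ⊆ {1, sf 0} ∪ (kls G c x ∪ (univ \ G).image fun i => sf (c i ^ 2 * x i)) := by
    intro d hd
    unfold clsO at hd
    rw [mem_insert, mem_insert] at hd
    rw [mem_union, mem_union, mem_insert, mem_singleton]
    by_cases h1 : d = 1 ∨ d = sf 0
    · exact Or.inl h1
    · right
      rw [not_or] at h1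
      rcases hd with h | h | h
      · exact absurd h h1.1
      · exact absurd h h1.2
      · rw [mem_image] at h
        obtain ⟨i, hi, hid⟩ := h
        by_cases hG : i ∈ G
        · left
          unfold kls
          rw [mem_sdiff, mem_insert, mem_singleton, not_or, mem_image]
          exact ⟨⟨i, mem_inter.2 ⟨hi, hG⟩, hid⟩, h1⟩
        · right
          rw [mem_image]
          exact ⟨i, mem_sdiff.2 ⟨mem_univ _, hG⟩, hid⟩
  have h1 := (Finset.card_le_card h0).trans (Finset.card_union_le _ _)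
  have h2 := Finset.card_union_le (kls G c x) ((univ \ G).image fun i => sf (c i ^ 2 * x i))
  have h3 : ((univ \ G).image fun i => sf (c i ^ 2 * x i)).card ≤ ρ := Finset.card_image_le.trans hρ
  have h4 : ({1, sf 0} : Finset ℕ).card ≤ 2 := Finset.card_le_two
  omega

theorem clsO_mem (c x : Fin n → ℕ) : ∀ a ∈ lst c x, sf a ∈ clsO c x := by
  intro a ha
  unfold lst at ha
  rw [List.mem_ofFn] at ha
  obtain ⟨i, rfl⟩ := ha
  unfold clsO
  rw [mem_insert, mem_insert, mem_image]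
  by_cases hc : c i = 0
  · right
    left
    rw [hc]
    simp
  · right
    right
    exact ⟨i, mem_filter.2 ⟨mem_univ _, hc⟩, rfl⟩

theorem clsO_sqf (c x : Fin n → ℕ) : ∀ d ∈ clsO c x, Squarefree d := by
  intro d hd
  unfold clsO at hd
  rw [mem_insert, mem_insert, mem_image] at hd
  rcases hd with rfl | rfl | ⟨i, _, rfl⟩
  · exact squarefree_one
  · exact (sf_spec 0).2
  · exact (sf_spec _).2

theorem kls_card (G : Finset (Fin n)) (c x : Fin n → ℕ) : (kls G c x).card ≤ n := by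
  unfold kls
  refine (Finset.card_le_card Finset.sdiff_subset).trans (Finset.card_image_le.trans ?_)
  have a0 := Finset.card_le_univ (sup c ∩ G)
  rwa [Fintype.card_fin] at a0

theorem bsz_leO {s : ℕ} {c x : Fin n → ℕ} (hc : ∀ i, c i < 2 ^ s) (hx : ∀ i, x i < 2 ^ s) {k : ℕ}
    (hk : Nat.size k ≤ s) : bsz (lst c x) k ≤ n * (3 * s + 1) + s := by
  have h1 : ((lst c x).map Nat.size).sum ≤ n * (3 * s) := by
    have h2 := List.sum_le_card_nsmul ((lst c x).map Nat.size) (3 * s) (by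
      intro a ha
      rw [List.mem_map] at ha
      obtain ⟨b, hb, rfl⟩ := ha
      unfold lst at hb
      rw [List.mem_ofFn] at hb
      obtain ⟨i, rfl⟩ := hb
      rw [Nat.size_le]
      have a1 : c i ^ 2 ≤ (2 ^ s) ^ 2 := Nat.pow_le_pow_left (hc i).le 2
      calc c i ^ 2 * x i < (2 ^ s) ^ 2 * 2 ^ s := by
            rcases Nat.eq_zero_or_pos (x i) with h0 | h0
            · rw [h0, mul_zero]
              positivity
            · exact lt_of_le_of_lt (Nat.mul_le_mul_right _ a1) (Nat.mul_lt_mul_of_pos_left (hx i) (by positivity))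
        _ = 2 ^ (3 * s) := by rw [← pow_mul, ← pow_add]; congr 1; ring)
    rw [smul_eq_mul, List.length_map] at h2
    refine h2.trans (le_of_eq ?_)
    unfold lst
    rw [List.length_ofFn]
  have h2 : (lst c x).length = n := by
    unfold lst
    rw [List.length_ofFn]
  unfold bsz
  rw [h2]
  have h5 : n * (3 * s + 1) = n + n * (3 * s) := by ring
  omega

open Classical in
theorem mainO : ∃ (c : Prog) (T : List ℕ → ℤ → ℕ) (q : Polynomial ℕ) (Λ : ℕ), 1 ≤ Λ ∧
    (∀ (L : List ℕ) (k : ℤ), Eval c (Pool.Agent.H8.SS.encS L k)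
      (bit (decide ((k : ℝ) ≤ (L.map fun a : ℕ => √(a : ℝ)).sum))) (T L k)) ∧
    ∀ (n r s ρ : ℕ) (A : Fin n → Finset ℕ) (w : Fin n → ℕ → ℝ) (θ : ℝ), Nat.size r ≤ s →
      (∀ i, ∀ a ∈ A i, Nat.size a ≤ s ∧ 0 ≤ w i a) → (∀ i, ∑ a ∈ A i, w i a = 1) → 0 ≤ θ →
      (Finset.univ.filter fun i => ∃ a ∈ A i, θ < w i a).card ≤ ρ → ∀ (σ : Bool) (F : Set (Fin n → ℕ)),
      (∀ m : ℕ, ∑ x ∈ (Fintype.piFinset A).filter (fun x => ∃ (c : Fin n → ℕ) (k : ℤ), Opt σ F c x ∧
          (∀ i, c i ≤ r) ∧ q.eval (n + s + Nat.size k.natAbs) * Λ ^ (m + ρ) < T (lst c x) k),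
        ∏ i, w i (x i) ≤ (4 * (n + 1) * (r + 1) * θ) ^ m) ∧
      (8 * Λ * (n + 1) * (r + 1) * θ ≤ 1 →
        ∀ (B : ℕ) (g : (Fin n → ℕ) → Fin n → ℕ) (k : (Fin n → ℕ) → ℤ),
        (∀ x ∈ Fintype.piFinset A, Opt σ F (g x) x ∧ (∀ i, g x i ≤ r) ∧ Nat.size (k x).natAbs ≤ B) →
        ∑ x ∈ Fintype.piFinset A, (∏ i, w i (x i)) * (T (lst (g x) x) (k x) : ℝ) ≤
          ((q.eval (n + s + B) * Λ ^ ρ : ℕ) : ℝ)) := by
  obtain ⟨c, T, q, Λ0, hΛ0, hE, hT, hT2⟩ := Pool.Agent.H84.OB.timD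
  obtain ⟨c', q', h'⟩ := Pool.Agent.H8.SS.ge0 c T hE
  choose T' hT' hE' using h'
  obtain ⟨qq, hqq⟩ : ∃ qq : Polynomial ℕ, ∀ y, qq.eval y =
      q.eval (3 * (y + 1) ^ 2) * Λ0 ^ 2 + q'.eval (3 * (y + 1) ^ 2) := by
    refine ⟨q.comp (Polynomial.C 3 * (Polynomial.X + 1) ^ 2) * Polynomial.C (Λ0 ^ 2) +
      q'.comp (Polynomial.C 3 * (Polynomial.X + 1) ^ 2), fun y => ?_⟩
    rw [Polynomial.eval_add, Polynomial.eval_mul, Polynomial.eval_comp, Polynomial.eval_comp,
      Polynomial.eval_C, Polynomial.eval_mul, Polynomial.eval_C,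
      Polynomial.eval_pow, Polynomial.eval_add, Polynomial.eval_X, Polynomial.eval_one]
  have hev2 : ∀ y, (qq * Polynomial.C (1 + 3 * Λ0)).eval y = qq.eval y * (1 + 3 * Λ0) := fun y => by
    rw [Polynomial.eval_mul, Polynomial.eval_C]
  refine ⟨c', T', qq * Polynomial.C (1 + 3 * Λ0), Λ0, hΛ0, hE',
    fun n r s ρ A w θ hrs hAw hw1 hθ hρ σ F => ?_⟩
  obtain ⟨G, hG⟩ : ∃ G, G = univ \ (Finset.univ.filter fun i => ∃ a ∈ A i, θ < w i a) := ⟨_, rfl⟩
  have hGc : (univ \ G).card ≤ ρ := by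
    rw [hG, Finset.sdiff_sdiff_eq_self (Finset.subset_univ _)]
    exact hρ
  have hΛR : (1 : ℝ) ≤ Λ0 := by exact_mod_cast hΛ0
  have hwθ : ∀ i ∈ G, ∀ a ∈ A i, w i a ≤ θ := by
    intro i hi a ha
    rw [hG, mem_sdiff, mem_filter, not_and] at hi
    have h1 := hi.2 (mem_univ i)
    push Not at h1
    exact h1 a ha
  have hr2 : r < 2 ^ s := (Nat.lt_size_self r).trans_le (Nat.pow_le_pow_right (by norm_num) hrs)
  have hx_lt : ∀ x ∈ Fintype.piFinset A, ∀ i, x i < 2 ^ s := fun x hx i =>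
    (Nat.lt_size_self _).trans_le (Nat.pow_le_pow_right (by norm_num) (hAw i _ (Fintype.mem_piFinset.1 hx i)).1)
  obtain ⟨L, hL⟩ : ∃ L, L = 2 ^ s := ⟨_, rfl⟩
  have hLb : ∀ z ∈ Fintype.piFinset A, ∀ i, √(z i : ℝ) ≤ (L : ℕ) := by
    intro z hz i
    rw [Real.sqrt_le_left (Nat.cast_nonneg _)]
    have h2 := hx_lt z hz i
    have h3 : z i ≤ L ^ 2 := by
      rw [← hL] at h2
      calc z i ≤ L := h2.le
        _ ≤ L ^ 2 := by
          rw [sq]
          exact Nat.le_mul_self L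
    exact_mod_cast h3
  obtain ⟨b, hb⟩ : ∃ b, b = n + 2 * s + 3 := ⟨_, rfl⟩
  have hb2 : 8 * (n * r * L + 1) ≤ 2 ^ b := by
    have a1 : n + 1 ≤ 2 ^ n := Nat.lt_two_pow_self
    have a2 : n * r * L + 1 ≤ (n + 1) * (2 ^ s * 2 ^ s) := by
      have a3 : r * L ≤ 2 ^ s * 2 ^ s := by
        rw [hL]
        exact Nat.mul_le_mul_right _ hr2.le
      have a4 : 1 ≤ 2 ^ s * 2 ^ s := Nat.one_le_iff_ne_zero.2 (by positivity)
      calc n * r * L + 1 = n * (r * L) + 1 := by ring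
        _ ≤ n * (2 ^ s * 2 ^ s) + 2 ^ s * 2 ^ s := Nat.add_le_add (Nat.mul_le_mul_left _ a3) a4
        _ = (n + 1) * (2 ^ s * 2 ^ s) := by ring
    calc 8 * (n * r * L + 1) ≤ 8 * (2 ^ n * (2 ^ s * 2 ^ s)) :=
          Nat.mul_le_mul_left _ (a2.trans (Nat.mul_le_mul_right _ a1))
      _ = 2 ^ b := by
          rw [hb, show n + 2 * s + 3 = n + (s + s) + 3 by ring, pow_add, pow_add, pow_add]
          ring
  -- the time for a solution and a threshold
  have hcl : ∀ x ∈ Fintype.piFinset A, ∀ (c : Fin n → ℕ) (k : ℤ) (m : ℕ), (∀ i, c i ≤ r) →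
      ((kls G c x).card ≤ m ∨ 1 ≤ |val c x - (k.natAbs : ℕ)| * 2 ^ (1 + b * 4 ^ (m + 1))) →
      T' (lst c x) k ≤ qq.eval (n + s + Nat.size k.natAbs) * Λ0 ^ (m + ρ) := by
    intro x hx c k m hr hm
    obtain ⟨κ, hκ⟩ : ∃ κ, κ = Nat.size k.natAbs := ⟨_, rfl⟩
    obtain ⟨P, hP⟩ : ∃ P, P = 3 * (n + s + κ + 1) ^ 2 := ⟨_, rfl⟩
    have hcs : ∀ i, c i < 2 ^ s := fun i => (hr i).trans_lt hr2
    have hsz : bsz (lst c x) k.natAbs + (b + κ) ≤ P := by
      have h1 : ((lst c x).map Nat.size).sum + (lst c x).length + Nat.size 0 ≤ n * (3 * s + 1) + s := by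
        have := bsz_leO (k := 0) hcs (fun i => hx_lt x hx i) (by rw [Nat.size_zero]; exact Nat.zero_le _)
        unfold bsz at this
        omega
      have a8 : P = 3 * n * n + 3 * s * s + 3 * κ * κ + 3 + 6 * n * s + 6 * n * κ + 6 * s * κ + 6 * n + 6 * s + 6 * κ := by
        rw [hP]; ring
      have a9 : n * (3 * s + 1) = 3 * n * s + n := by ring
      have a10 : 6 * n * s = 3 * n * s + 3 * n * s := by ring
      unfold bsz
      rw [← hκ]
      omega
    have hTb : T (lst c x) k.natAbs ≤ q.eval P * Λ0 ^ (m + ρ + 2) := by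
      rcases hm with hm | hm
      · have h2 := hT2 (lst c x) k.natAbs (b + κ) (clsO c x) (clsO_mem _ _) (mem_insert_self _ _) (clsO_sqf _ _) (by
          have a4 := val_le hr (hLb x hx)
          have hbb : (2 : ℝ) ^ b ≤ 2 ^ (b + κ) := pow_le_pow_right₀ (by norm_num) (Nat.le_add_right _ _)
          have a5 : (8 : ℝ) * (n * r * (L : ℕ) + 1) ≤ 2 ^ b := by exact_mod_cast hb2
          have a6 : (8 : ℝ) * (k.natAbs : ℕ) ≤ 2 ^ (b + κ) := by
            have h5 : 8 * k.natAbs ≤ 2 ^ (b + κ) := by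
              calc 8 * k.natAbs ≤ 2 ^ 3 * 2 ^ κ := by
                    refine Nat.mul_le_mul (by norm_num) ?_
                    rw [hκ]
                    exact (Nat.lt_size_self _).le
                _ = 2 ^ (3 + κ) := (pow_add _ _ _).symm
                _ ≤ 2 ^ (b + κ) := Nat.pow_le_pow_right (by norm_num) (by omega)
            exact_mod_cast h5
          rw [val_lst]
          have b6 : (0 : ℝ) ≤ n * r * (L : ℕ) := by positivity
          linarith)
        have h3 := clsO_card hGc c x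
        exact h2.trans (Nat.mul_le_mul (poly_mono q hsz) (Nat.pow_le_pow_right hΛ0 (by omega)))
      · have hsep : 1 ≤ |EE (lst c x) k.natAbs| * 2 ^ (1 + b * 4 ^ (m + 1)) := by
          unfold EE
          rw [val_lst]
          exact hm
        exact (hT _ _ b (m + 1) hsep).trans
          (Nat.mul_le_mul (poly_mono q (by omega)) (Nat.pow_le_pow_right hΛ0 (by omega)))
    have hΛm : 1 ≤ Λ0 ^ (m + ρ) := Nat.one_le_pow _ _ hΛ0
    rw [← hκ, hqq, ← hP]
    calc T' (lst c x) k ≤ T (lst c x) k.natAbs + q'.eval P := by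
          refine (hT' _ _).trans (Nat.add_le_add_left (poly_mono q' ?_) _)
          exact (Nat.le_add_right _ _).trans hsz
      _ ≤ q.eval P * Λ0 ^ (m + ρ + 2) + q'.eval P * Λ0 ^ (m + ρ) :=
          Nat.add_le_add hTb (Nat.le_mul_of_pos_right _ hΛm)
      _ = (q.eval P * Λ0 ^ 2 + q'.eval P) * Λ0 ^ (m + ρ) := by
          rw [pow_add Λ0 (m + ρ) 2]
          ring
  have hnb : ∀ x ∈ Fintype.piFinset A, ∀ (c : Fin n → ℕ) (k : ℤ) (m : ℕ), Opt σ F c x → (∀ i, c i ≤ r) →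
      ¬ BadO G σ F r b m x → T' (lst c x) k ≤ qq.eval (n + s + Nat.size k.natAbs) * Λ0 ^ (m + ρ) := by
    intro x hx c k m hS hr hbad
    refine hcl x hx c k m hr ?_
    by_contra hcon
    rw [not_or, not_le, not_le] at hcon
    exact hbad ⟨k.natAbs, c, hS, hr, hcon.1.le, hcon.2⟩
  have hWn : ∀ x ∈ Fintype.piFinset A, 0 ≤ ∏ i, w i (x i) := fun x hx =>
    Finset.prod_nonneg fun i _ => (hAw i _ (Fintype.mem_piFinset.1 hx i)).2
  have hW1 : ∑ x ∈ Fintype.piFinset A, ∏ i, w i (x i) = 1 := by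
    rw [← Finset.prod_univ_sum, Finset.prod_congr rfl fun i _ => hw1 i]
    simp
  have hone : ∀ m, ∑ x ∈ (Fintype.piFinset A).filter (fun x => BadO G σ F r b m x), ∏ i, w i (x i) ≤
      (4 * (n + 1) * (r + 1) * θ) ^ m := fun m =>
    one_setO (m := m) hθ (fun i a ha => (hAw i a ha).2) hw1 hwθ hLb σ F hb2
  refine ⟨fun m => ?_, fun hθΛ B g k hg => ?_⟩
  · refine le_trans ?_ (hone m)
    refine Finset.sum_le_sum_of_subset_of_nonneg ?_ fun x hx _ => hWn x (mem_filter.1 hx).1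
    intro x hx
    obtain ⟨hx1, c, k, hS, hr, hlt⟩ := mem_filter.1 hx
    refine mem_filter.2 ⟨hx1, ?_⟩
    by_contra hbad
    have h1 := hnb x hx1 c k m hS hr hbad
    have h2 : qq.eval (n + s + Nat.size k.natAbs) * Λ0 ^ (m + ρ) ≤
        (qq * Polynomial.C (1 + 3 * Λ0)).eval (n + s + Nat.size k.natAbs) * Λ0 ^ (m + ρ) := by
      rw [hev2]
      exact Nat.mul_le_mul_right _ (Nat.le_mul_of_pos_right _ (by omega))
    omega
  · have hmono : ∀ x ∈ Fintype.piFinset A, qq.eval (n + s + Nat.size (k x).natAbs) ≤ qq.eval (n + s + B) :=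
      fun x hx => poly_mono qq (by have := (hg x hx).2.2; omega)
    have key := Pool.Agent.H41.RC.avgW (Fintype.piFinset A) (fun x => ∏ i, w i (x i))
      (fun x => (T' (lst (g x) x) (k x) : ℝ)) (fun m x => BadO G σ F r b m x)
      (Q := ((qq.eval (n + s + B) * Λ0 ^ ρ : ℕ) : ℝ)) (L := (Λ0 : ℝ)) (Nat.cast_nonneg _) hΛR hWn hW1
      (M := n) (p := fun m => (4 * (n + 1) * (r + 1) * θ) ^ m) ?_ ?_ ?_
    · have hgeo := Pool.Agent.H41.RC.geo (L := (Λ0 : ℝ)) (θ := 4 * (n + 1) * (r + 1) * θ) hΛR (by positivity)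
        (by linarith) n
      refine (key.trans (mul_le_mul_of_nonneg_left hgeo (Nat.cast_nonneg _))).trans (le_of_eq ?_)
      rw [hev2]
      push_cast
      ring
    · intro x hx m _ hbad
      obtain ⟨hS, hr, -⟩ := hg x hx
      have h1 : T' (lst (g x) x) (k x) ≤ qq.eval (n + s + B) * Λ0 ^ ρ * Λ0 ^ m := by
        refine (hnb x hx (g x) (k x) m hS hr hbad).trans ?_
        rw [pow_add, mul_assoc (qq.eval (n + s + B)), mul_comm (Λ0 ^ ρ)]
        exact Nat.mul_le_mul_right _ (hmono x hx)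
      exact_mod_cast h1
    · intro x hx
      obtain ⟨hS, hr, -⟩ := hg x hx
      have h1 : T' (lst (g x) x) (k x) ≤ qq.eval (n + s + B) * Λ0 ^ ρ * Λ0 ^ n := by
        refine (hcl x hx (g x) (k x) n hr (Or.inl (kls_card _ _ _))).trans ?_
        rw [pow_add, mul_assoc (qq.eval (n + s + B)), mul_comm (Λ0 ^ ρ)]
        exact Nat.mul_le_mul_right _ (hmono x hx)
      exact_mod_cast h1
    · intro m _
      exact hone m

end Pool.Agent.H84.OS
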