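import Pool.Agent.H84.SM.Set
import Pool.Agent.H84.OB.Tm

/-!
MP_dd013b_lc (optimal solutions of random problems): definitions, and the bad values of the weights of a set of items for a
fixed pattern of coefficients.
-/

set_option autoImplicit false

namespace Pool.Agent.H84.OS

open Finset

open Pool.Agent.H92.SR hiding nb

open Pool.Agent.H84.TS (mix sf_sq)

variable {n : ℕ}

/-- the value of the solution `c` for the weights `√(x i)` -/
noncomputable def val (c x : Fin n → ℕ) : ℝ := ∑ i, (c i : ℝ) * √(x i : ℝ)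

/-- the radicands whose roots have the sum `val c x` -/
def lst (c x : Fin n → ℕ) : List ℕ := List.ofFn fun i => c i ^ 2 * x i

/-- `c` is an optimal member of the family `F`: least value for `σ = true`, greatest value for `σ = false` -/
def Opt (σ : Bool) (F : Set (Fin n → ℕ)) (c x : Fin n → ℕ) : Prop :=
  c ∈ F ∧ ∀ c' ∈ F, if σ = true then val c x ≤ val c' x else val c' x ≤ val c x

theorem sqrt_cv (c v : ℕ) : √((c ^ 2 * v : ℕ) : ℝ) = (c : ℝ) * √(v : ℝ) := by
  push_cast
  rw [Real.sqrt_mul (by positivity), Real.sqrt_sq (Nat.cast_nonneg _)]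

theorem val_lst (c x : Fin n → ℕ) : ((lst c x).map fun a : ℕ => √(a : ℝ)).sum = val c x := by
  unfold lst val
  rw [List.map_ofFn, List.sum_ofFn]
  exact Finset.sum_congr rfl fun i _ => sqrt_cv (c i) (x i)

theorem rt_ne {a : ℕ} (ha : a ≠ 0) : rt a ≠ 0 := by
  intro h
  have := (sf_spec a).1
  rw [h] at this
  exact ha (by rw [← this]; simp)

theorem sf_cv {c v : ℕ} (hc : c ≠ 0) (hv : v ≠ 0) : sf (c ^ 2 * v) = sf v := by
  by_contra hne
  have h1 := sqrt_cv c v
  rw [sqrt_cls (c ^ 2 * v), sqrt_cls v] at h1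
  have h2 := ind (D := {sf (c ^ 2 * v), sf v}) (by
    intro d hd
    rw [Finset.mem_insert, Finset.mem_singleton] at hd
    rcases hd with rfl | rfl
    · exact (sf_spec _).2
    · exact (sf_spec _).2) (fun d => if d = sf (c ^ 2 * v) then (rt (c ^ 2 * v) : ℤ) else -((c : ℤ) * rt v)) (by
    rw [Finset.sum_pair hne, if_pos rfl, if_neg (fun h => hne h.symm)]
    push_cast
    linarith) (sf (c ^ 2 * v)) (Finset.mem_insert_self _ _)
  rw [if_pos rfl] at h2
  exact rt_ne (a := c ^ 2 * v) (by positivity) (by exact_mod_cast h2)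

/-- the part of the value outside `I` -/
noncomputable def out (I : Finset (Fin n)) (c x : Fin n → ℕ) : ℝ := ∑ i ∈ univ \ I, (c i : ℝ) * √(x i : ℝ)

theorem val_mix (I : Finset (Fin n)) (c z x : Fin n → ℕ) :
    val c (mix I z x) = (∑ i ∈ I, (c i : ℝ) * √(z i : ℝ)) + out I c x := by
  unfold val out
  rw [← Finset.sum_sdiff (Finset.subset_univ I), add_comm]
  congr 1
  · refine Finset.sum_congr rfl fun i hi => ?_
    unfold mix
    rw [if_pos hi]
  · refine Finset.sum_congr rfl fun i hi => ?_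
    unfold mix
    rw [if_neg (Finset.mem_sdiff.1 hi).2]

theorem val_le {r L : ℕ} {c x : Fin n → ℕ} (hc : ∀ i, c i ≤ r) (hx : ∀ i, √(x i : ℝ) ≤ L) :
    val c x ≤ n * r * L := by
  unfold val
  calc ∑ i, (c i : ℝ) * √(x i : ℝ) ≤ ∑ _i : Fin n, (r : ℝ) * L := by
        refine Finset.sum_le_sum fun i _ => mul_le_mul ?_ (hx i) (Real.sqrt_nonneg _) (Nat.cast_nonneg _)
        exact_mod_cast hc i
    _ = n * r * L := by
        rw [Finset.sum_const, Finset.card_univ, Fintype.card_fin, nsmul_eq_mul, mul_assoc]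

theorem loc_sumO (I : Finset (Fin n)) (ν z : Fin n → ℕ) (k : ℕ) :
    ∑ j : Option {o // o ∈ I}, √((j.elim ((k + 1) ^ 2) fun p => ν p.1 ^ 2 * z p.1 : ℕ) : ℝ) =
      (∑ i ∈ I, (ν i : ℝ) * √(z i : ℝ)) + (k + 1) := by
  rw [Fintype.sum_option]
  simp only [Option.elim_none, Option.elim_some]
  rw [Finset.sum_congr rfl fun p _ => sqrt_cv (ν p.1) (z p.1)]
  push_cast
  rw [Real.sqrt_sq (by positivity), add_comm]
  congr 1
  exact Finset.sum_coe_sort I fun i => (ν i : ℝ) * √(z i : ℝ)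

/-- two sums over the index set `J`: equal sums, and the classes of each side are distinct: the terms are equal -/
theorem cls_match {J : Type} [Fintype J] {a a' : J → ℕ} (h : ∑ j, √(a j : ℝ) = ∑ j, √(a' j : ℝ))
    (hi : ∀ j j', sf (a j) = sf (a j') → j = j') (hi' : ∀ j j', sf (a' j) = sf (a' j') → j = j')
    (j : J) (hj : 1 ≤ a j) : ∃ i, a j = a' i := by
  classical
  obtain ⟨D, hD⟩ : ∃ D, D = Finset.univ.image (fun j => sf (a j)) ∪ Finset.univ.image (fun j => sf (a' j)) :=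
    ⟨_, rfl⟩
  have hD1 : ∀ j, sf (a j) ∈ D := fun j => by
    rw [hD]
    exact Finset.mem_union_left _ (Finset.mem_image_of_mem _ (Finset.mem_univ j))
  have hD2 : ∀ j, sf (a' j) ∈ D := fun j => by
    rw [hD]
    exact Finset.mem_union_right _ (Finset.mem_image_of_mem _ (Finset.mem_univ j))
  have hDs : ∀ d ∈ D, Squarefree d := by
    intro d hd
    rw [hD, Finset.mem_union, Finset.mem_image, Finset.mem_image] at hd
    rcases hd with ⟨i, _, rfl⟩ | ⟨i, _, rfl⟩
    · exact (sf_spec _).2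
    · exact (sf_spec _).2
  have e1 := cls_sum a hD1
  have e2 := cls_sum a' hD2
  rw [h, e2] at e1
  have h2 := ind hDs (fun d => ((∑ j ∈ Finset.univ.filter (fun j => sf (a j) = d), rt (a j) : ℕ) : ℤ) -
    ((∑ j ∈ Finset.univ.filter (fun j => sf (a' j) = d), rt (a' j) : ℕ) : ℤ)) (by
      push_cast
      simp only [sub_mul]
      rw [Finset.sum_sub_distrib]
      push_cast at e1
      linarith) (sf (a j)) (hD1 j)
  have h3 : ∑ j' ∈ Finset.univ.filter (fun j' => sf (a j') = sf (a j)), rt (a j') = rt (a j) := by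
    have hmem : j ∈ Finset.univ.filter (fun j' => sf (a j') = sf (a j)) :=
      Finset.mem_filter.2 ⟨Finset.mem_univ j, rfl⟩
    rw [Finset.sum_eq_single_of_mem j hmem]
    intro i hi2 hne
    exact absurd (hi _ _ (Finset.mem_filter.1 hi2).2) hne
  obtain ⟨i, hi1⟩ := Pool.Agent.H84.OB.cls_eq0 h j hj
  have h4 : ∑ j' ∈ Finset.univ.filter (fun j' => sf (a' j') = sf (a j)), rt (a' j') = rt (a' i) := by
    have hmem : i ∈ Finset.univ.filter (fun j' => sf (a' j') = sf (a j)) :=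
      Finset.mem_filter.2 ⟨Finset.mem_univ i, hi1.symm⟩
    rw [Finset.sum_eq_single_of_mem i hmem]
    intro i' hi2 hne
    exact absurd (hi' _ _ ((Finset.mem_filter.1 hi2).2.trans hi1)) hne
  rw [h3, h4] at h2
  have h5 : rt (a j) = rt (a' i) := by omega
  refine ⟨i, ?_⟩
  rw [← (sf_spec (a j)).1, ← (sf_spec (a' i)).1, h5, hi1]

theorem patO {A : Fin n → Finset ℕ} {w : Fin n → ℕ → ℝ} {θ : ℝ} (hθ : 0 ≤ θ)
    (hw0 : ∀ i, ∀ a ∈ A i, 0 ≤ w i a) (hw1 : ∀ i, ∑ a ∈ A i, w i a = 1)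
    {L r : ℕ} (hL : ∀ z ∈ Fintype.piFinset A, ∀ i, √(z i : ℝ) ≤ L) {x : Fin n → ℕ}
    (hx : x ∈ Fintype.piFinset A) (I : Finset (Fin n)) (hwθ : ∀ i ∈ I, ∀ a ∈ A i, w i a ≤ θ) (σ : Bool) (F : Set (Fin n → ℕ)) (ν : Fin n → ℕ) {b : ℕ}
    (hb : 8 * (n * r * L + 1) ≤ 2 ^ b) (V : Finset (Fin n → ℕ)) (hV : V ⊆ Fintype.piFinset A)
    (hν : ∀ i ∈ I, ν i ≠ 0)
    (hbad : ∀ z ∈ V, ∃ (k : ℕ) (c : Fin n → ℕ), Opt σ F c (mix I z x) ∧ (∀ i, c i ≤ r) ∧
      (∀ i ∈ I, c i = ν i) ∧ (∀ i ∈ I, z i ≠ 0 ∧ sf (z i) ≠ 1) ∧ (∀ i ∈ I, ∀ j ∈ I, sf (z i) = sf (z j) → i = j) ∧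
      |val c (mix I z x) - k| * 2 ^ (1 + b * 4 ^ (I.card + 1)) < 1) :
    ∑ z ∈ V, ∏ i, w i (z i) ≤ (I.card * θ) ^ I.card := by
  classical
  rcases V.eq_empty_or_nonempty with hVe | ⟨z0, hz0⟩
  · rw [hVe, Finset.sum_empty]
    positivity
  obtain ⟨k0, c0, hS0, hc0, hν0, hn0, hd0, hl0⟩ := hbad z0 hz0
  have hcard : Fintype.card (Option {o // o ∈ I}) = I.card + 1 := by
    rw [Fintype.card_option, Fintype.card_coe]
  have hup : ∀ z ∈ V, mix I z x ∈ Fintype.piFinset A := by
    intro z hz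
    have h1 := Fintype.mem_piFinset.1 (hV hz)
    have h2 := Fintype.mem_piFinset.1 hx
    rw [Fintype.mem_piFinset]
    intro i
    unfold mix
    split_ifs
    · exact h1 i
    · exact h2 i
  have key : ∀ z ∈ V, ∀ i ∈ I, ∃ p ∈ I, ν i ^ 2 * z i = ν p ^ 2 * z0 p := by
    intro z hz i hiI
    obtain ⟨k, c, hS, hc, hν1, hn1, hd1, hl⟩ := hbad z hz
    have e1 := val_mix I c z x
    have e2 := val_mix I c0 z0 x
    have e3 := val_mix I c0 z x
    have e4 := val_mix I c z0 x
    have hsumν : ∀ (d : Fin n → ℕ) (y : Fin n → ℕ), (∀ i ∈ I, d i = ν i) →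
        ∑ i ∈ I, (d i : ℝ) * √(y i : ℝ) = ∑ i ∈ I, (ν i : ℝ) * √(y i : ℝ) := fun d y hd =>
      Finset.sum_congr rfl fun i hi => by rw [hd i hi]
    rw [hsumν c z hν1] at e1
    rw [hsumν c0 z0 hν0] at e2
    rw [hsumν c0 z hν0] at e3
    rw [hsumν c z0 hν1] at e4
    have hR : out I c x = out I c0 x := by
      have e5 := hS.2 c0 hS0.1
      have e6 := hS0.2 c hS.1
      by_cases hσ : σ = true
      · rw [if_pos hσ, e1, e3] at e5
        rw [if_pos hσ, e2, e4] at e6
        exact le_antisymm (by linarith) (by linarith)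
      · rw [if_neg hσ, e1, e3] at e5
        rw [if_neg hσ, e2, e4] at e6
        exact le_antisymm (by linarith) (by linarith)
    obtain ⟨E, hE⟩ : ∃ E, E = 4 ^ (I.card + 1) := ⟨_, rfl⟩
    rw [← hE] at hl hl0
    have hpow : (2 : ℝ) ^ (1 + b * E) = 2 * (2 ^ b) ^ E := by rw [pow_add, pow_one, pow_mul]
    have hB1 : (1 : ℝ) ≤ 2 ^ b := one_le_pow₀ (by norm_num)
    have hB0 : (0 : ℝ) < 2 * (2 ^ b) ^ E := by positivity
    have hB2 : (1 : ℝ) ≤ 2 * (2 ^ b) ^ E := by
      have := one_le_pow₀ (n := E) hB1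
      linarith
    rw [hpow] at hl hl0
    have hu1 : |val c (mix I z x) - k| < 1 := by
      by_contra hcon
      rw [not_lt] at hcon
      have := mul_le_mul hcon hB2 zero_le_one (abs_nonneg _)
      linarith
    have hu2 : |val c0 (mix I z0 x) - k0| < 1 := by
      by_contra hcon
      rw [not_lt] at hcon
      have := mul_le_mul hcon hB2 zero_le_one (abs_nonneg _)
      linarith
    have hvb := val_le hc (hL _ (hup z hz))
    have hvb0 := val_le hc0 (hL _ (hup z0 hz0))
    have hkle : (k : ℝ) ≤ n * r * L + 1 := by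
      have a2 := abs_lt.1 hu1
      linarith
    have hk0le : (k0 : ℝ) ≤ n * r * L + 1 := by
      have a2 := abs_lt.1 hu2
      linarith
    have hout : ∀ d : Fin n → ℕ, 0 ≤ out I d x := fun d =>
      Finset.sum_nonneg fun i _ => mul_nonneg (Nat.cast_nonneg _) (Real.sqrt_nonneg _)
    have o1 := hout c
    have o2 := hout c0
    rw [e1] at hl hvb
    rw [e2] at hvb0
    rw [e2, ← hR] at hl0
    obtain ⟨a, ha⟩ : ∃ a : Option {o // o ∈ I} → ℕ, a = fun j => j.elim ((k0 + 1) ^ 2) fun p => ν p.1 ^ 2 * z p.1 :=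
      ⟨_, rfl⟩
    obtain ⟨a', ha'⟩ : ∃ a' : Option {o // o ∈ I} → ℕ, a' = fun j => j.elim ((k + 1) ^ 2) fun p => ν p.1 ^ 2 * z0 p.1 :=
      ⟨_, rfl⟩
    have hs1 : ∑ j, √(a j : ℝ) = (∑ i ∈ I, (ν i : ℝ) * √(z i : ℝ)) + (k0 + 1) := by
      rw [ha]
      exact loc_sumO _ _ _ _
    have hs2 : ∑ j, √(a' j : ℝ) = (∑ i ∈ I, (ν i : ℝ) * √(z0 i : ℝ)) + (k + 1) := by
      rw [ha']
      exact loc_sumO _ _ _ _
    have heq : ∑ j, √(a j : ℝ) = ∑ j, √(a' j : ℝ) := by
      by_contra hne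
      have hbR : (8 : ℝ) * (n * r * L + 1) ≤ 2 ^ b := by exact_mod_cast hb
      have hsum : ∑ j, √(a j : ℝ) + ∑ j, √(a' j : ℝ) ≤ 2 ^ b := by
        rw [hs1, hs2]
        have b1 : (0 : ℝ) ≤ n * r * L := by positivity
        linarith
      have h2 := cls_sep hne hB1 hsum
      have h3 : ∑ j, √(a j : ℝ) - ∑ j, √(a' j : ℝ) =
          ((∑ i ∈ I, (ν i : ℝ) * √(z i : ℝ)) + out I c x - k) -
          ((∑ i ∈ I, (ν i : ℝ) * √(z0 i : ℝ)) + out I c x - k0) := by
        rw [hs1, hs2]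
        ring
      rw [h3] at h2
      obtain ⟨u, hu⟩ : ∃ u, u = (∑ i ∈ I, (ν i : ℝ) * √(z i : ℝ)) + out I c x - k := ⟨_, rfl⟩
      obtain ⟨u0, hu0⟩ : ∃ u0, u0 = (∑ i ∈ I, (ν i : ℝ) * √(z0 i : ℝ)) + out I c x - k0 := ⟨_, rfl⟩
      rw [← hu, ← hu0] at h2
      rw [← hu] at hl
      rw [← hu0] at hl0
      have h4 : |u - u0| ≤ |u| + |u0| := abs_sub _ _
      have h5 : |u - u0| * (2 * (2 ^ b) ^ E) < 2 := by
        have := mul_le_mul_of_nonneg_right h4 hB0.le
        linarith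
      have h6 : ((2 : ℝ) ^ b) ^ (2 ^ (2 * Fintype.card (Option {o // o ∈ I})) - 1) ≤ (2 ^ b) ^ E := by
        refine pow_le_pow_right₀ hB1 ((Nat.sub_le _ _).trans ?_)
        rw [pow_mul, hE, hcard]
        norm_num
      have h7 := mul_le_mul_of_nonneg_left h6 (abs_nonneg (u - u0))
      linarith
    have hcla : ∀ j j', sf (a j) = sf (a j') → j = j' := by
      intro j j' hjj
      rw [ha] at hjj
      cases j with
      | none => cases j' with
        | none => rfl
        | some p' =>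
          exfalso
          simp only [Option.elim_none, Option.elim_some] at hjj
          rw [sf_sq, sf_cv (hν p'.1 p'.2) (hn1 p'.1 p'.2).1] at hjj
          exact (hn1 p'.1 p'.2).2 hjj.symm
      | some p => cases j' with
        | none =>
          exfalso
          simp only [Option.elim_none, Option.elim_some] at hjj
          rw [sf_sq, sf_cv (hν p.1 p.2) (hn1 p.1 p.2).1] at hjj
          exact (hn1 p.1 p.2).2 hjj
        | some p' =>
          simp only [Option.elim_some] at hjj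
          rw [sf_cv (hν p'.1 p'.2) (hn1 p'.1 p'.2).1, sf_cv (hν p.1 p.2) (hn1 p.1 p.2).1] at hjj
          rw [Subtype.ext (hd1 p.1 p.2 p'.1 p'.2 hjj)]
    have hcla' : ∀ j j', sf (a' j) = sf (a' j') → j = j' := by
      intro j j' hjj
      rw [ha'] at hjj
      cases j with
      | none => cases j' with
        | none => rfl
        | some p' =>
          exfalso
          simp only [Option.elim_none, Option.elim_some] at hjj
          rw [sf_sq, sf_cv (hν p'.1 p'.2) (hn0 p'.1 p'.2).1] at hjj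
          exact (hn0 p'.1 p'.2).2 hjj.symm
      | some p => cases j' with
        | none =>
          exfalso
          simp only [Option.elim_none, Option.elim_some] at hjj
          rw [sf_sq, sf_cv (hν p.1 p.2) (hn0 p.1 p.2).1] at hjj
          exact (hn0 p.1 p.2).2 hjj
        | some p' =>
          simp only [Option.elim_some] at hjj
          rw [sf_cv (hν p'.1 p'.2) (hn0 p'.1 p'.2).1, sf_cv (hν p.1 p.2) (hn0 p.1 p.2).1] at hjj
          rw [Subtype.ext (hd0 p.1 p.2 p'.1 p'.2 hjj)]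
    have hai : a (some ⟨i, hiI⟩) = ν i ^ 2 * z i := by rw [ha]; rfl
    have hνi := hν i hiI
    have hzi := hn1 i hiI
    have hpos : 1 ≤ a (some ⟨i, hiI⟩) := by
      rw [hai]
      have := hzi.1
      exact Nat.one_le_iff_ne_zero.2 (by positivity)
    obtain ⟨j, hj⟩ := cls_match heq hcla hcla' (some ⟨i, hiI⟩) hpos
    rw [hai] at hj
    cases j with
    | none =>
      exfalso
      rw [ha'] at hj
      simp only [Option.elim_none] at hj
      have h9 := sf_cv hνi hzi.1
      rw [hj, sf_sq] at h9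
      exact hzi.2 h9.symm
    | some p =>
      rw [ha'] at hj
      exact ⟨p.1, p.2, hj⟩
  obtain ⟨A', hA'⟩ : ∃ A' : Fin n → Finset ℕ, A' = fun i => (A i).filter fun v =>
    ∃ p ∈ I, ν i ^ 2 * v = ν p ^ 2 * z0 p := ⟨_, rfl⟩
  have hAc : ∀ i ∈ I, ∑ v ∈ A' i, w i v ≤ I.card * θ := by
    intro i hi
    have hsub : A' i ⊆ I.image fun p => ν p ^ 2 * z0 p / ν i ^ 2 := by
      intro v hv
      rw [hA'] at hv
      obtain ⟨_, p, hp, hpv⟩ := mem_filter.1 hv
      rw [mem_image]
      refine ⟨p, hp, ?_⟩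
      rw [← hpv]
      have := hν i hi
      exact Nat.mul_div_cancel_left v (by positivity)
    have c1 : (A' i).card ≤ I.card := (Finset.card_le_card hsub).trans Finset.card_image_le
    have c2 : ∑ v ∈ A' i, w i v ≤ (A' i).card • θ := Finset.sum_le_card_nsmul _ _ _ fun v hv => by
      rw [hA'] at hv
      exact hwθ i hi v (mem_filter.1 hv).1
    rw [nsmul_eq_mul] at c2
    exact c2.trans (mul_le_mul_of_nonneg_right (by exact_mod_cast c1) hθ)
  have hVsub : V ⊆ Fintype.piFinset fun i => if i ∈ I then A' i else A i := by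
    intro z hz
    rw [Fintype.mem_piFinset]
    intro i
    have hzi := Fintype.mem_piFinset.1 (hV hz) i
    split_ifs with hi
    · rw [hA']
      exact mem_filter.2 ⟨hzi, key z hz i hi⟩
    · exact hzi
  have hsubA : ∀ i, (if i ∈ I then A' i else A i) ⊆ A i := by
    intro i
    split_ifs
    · rw [hA']
      exact Finset.filter_subset _ _
    · exact fun _ h => h
  calc ∑ z ∈ V, ∏ i, w i (z i) ≤ ∑ z ∈ Fintype.piFinset fun i => if i ∈ I then A' i else A i, ∏ i, w i (z i) := by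
        refine Finset.sum_le_sum_of_subset_of_nonneg hVsub fun z hz _ => Finset.prod_nonneg fun i _ => ?_
        exact hw0 i _ (hsubA i (Fintype.mem_piFinset.1 hz i))
    _ = ∏ i, ∑ v ∈ (if i ∈ I then A' i else A i), w i v := (Finset.prod_univ_sum _ _).symm
    _ ≤ ∏ i, (if i ∈ I then (I.card : ℝ) * θ else 1) := by
        refine Finset.prod_le_prod (fun i _ => Finset.sum_nonneg fun v hv => hw0 i v (hsubA i hv)) fun i _ => ?_
        by_cases hi : i ∈ I
        · rw [if_pos hi, if_pos hi]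
          exact hAc i hi
        · rw [if_neg hi, if_neg hi, hw1]
    _ = (I.card * θ) ^ I.card := by
        rw [Finset.prod_ite_mem, Finset.univ_inter, Finset.prod_const]

end Pool.Agent.H84.OS
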